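import Pool.Agent.H71.CR.Stmt

set_option autoImplicit false

namespace Pool.Agent.H2.CR

open Set Pool.Agent.TK Pool.Agent.H71.VK Pool.Agent.CR

theorem pf_MIN (hFRM : T_FRM) (hTIB : T_TIB) (hTID : T_TID) (_hFAR : T_FAR) : T_MIN := by
  classical
  intro n c Sm G π B hB
  obtain ⟨-, fr2, -, -⟩ := hFRM n c Sm G π B hB
  obtain ⟨-, sym, mon, -⟩ := hTIB n c Sm G π B hB
  have tid := hTID n c Sm G π B hB
  -- the empty tuple is independent of everything
  have hemp : ∀ (X : List ℕ), B ⊆ X → ∀ v : List ℕ, v.length ≤ n.2 → G.Mb π X v →
      G.TI π B [] v := by
    intro X hBX v hv hM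
    obtain ⟨w', h1, h2, h3⟩ := fr2 X B (List.Subset.refl _) hBX v hv hM
    refine ⟨[], w', ?_, h1, ?_, rfl, h2, ?_⟩
    · intro a ha
      cases ha
    · intro j hj _
      exact hj
    · exact h3
  have main : ∀ (N : ℕ) (u v : List ℕ), u.length + v.length ≤ N → u.length + v.length ≤ n.2 →
      (∃ X, B ⊆ X ∧ G.Mb π X (u ++ v)) → ¬ G.TI π B u v →
      ∃ e : List ℕ, e.Nodup ∧ e.length ≤ n.2 ∧ G.Idc π B e ∧
        (∀ x ∈ e, x ∈ u ∨ x ∈ v) ∧ (∃ x ∈ e, x ∈ u) ∧ ∃ x ∈ e, x ∈ v := by
    intro N
    induction N with
    | zero =>
      intro u v hN hl hX hn
      exfalso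
      obtain ⟨X, hBX, hM⟩ := hX
      have hu : u = [] := List.length_eq_zero_iff.1 (by omega)
      have hv : v = [] := List.length_eq_zero_iff.1 (by omega)
      subst hu
      exact hn (hemp X hBX v (by omega) (fun a ha => hM a (List.mem_append_right _ ha)))
    | succ N ih =>
      intro u v hN hl hX hn
      obtain ⟨X, hBX, hM⟩ := hX
      by_cases hcom : ∃ a, a ∈ u ∧ a ∈ v
      · obtain ⟨a, hau, hav⟩ := hcom
        have h1 : 0 < u.length := List.length_pos_of_mem hau
        refine ⟨[a], List.nodup_singleton a, ?_, ?_, ?_, ?_, ?_⟩
        · simp only [List.length_cons, List.length_nil]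
          omega
        · intro e1 e2 h1 h2 hd hx _
          obtain ⟨x1, hx1⟩ := List.exists_mem_of_ne_nil e1 h1
          obtain ⟨x2, hx2⟩ := List.exists_mem_of_ne_nil e2 h2
          have e1a : x1 = a := List.mem_singleton.1 ((hx x1).2 (Or.inl hx1))
          have e2a : x2 = a := List.mem_singleton.1 ((hx x2).2 (Or.inr hx2))
          subst e1a
          subst e2a
          exact hd _ hx1 hx2
        · intro x hx
          rw [List.mem_singleton.1 hx]
          exact Or.inl hau
        · exact ⟨a, List.mem_singleton.2 rfl, hau⟩
        · exact ⟨a, List.mem_singleton.2 rfl, hav⟩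
      · have hune : u ≠ [] := by
          intro h0
          subst h0
          exact hn (hemp X hBX v (by simp only [List.length_nil] at hl; omega)
            (fun a ha => hM a (List.mem_append_right _ ha)))
        have hvne : v ≠ [] := by
          intro h0
          subst h0
          exact hn (sym _ _ (hemp X hBX u (by simp only [List.length_nil] at hl; omega)
            (fun a ha => hM a (List.mem_append_left _ ha))))
        obtain ⟨a0, ha0⟩ := List.exists_mem_of_ne_nil u hune
        obtain ⟨b0, hb0⟩ := List.exists_mem_of_ne_nil v hvne
        by_cases hI : G.Idc π B (u ++ v).dedup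
        · refine ⟨(u ++ v).dedup, List.nodup_dedup _, ?_, hI, ?_, ?_, ?_⟩
          · have h1 : (u ++ v).dedup.length ≤ (u ++ v).length := (List.dedup_sublist _).length_le
            rw [List.length_append] at h1
            omega
          · intro x hx
            exact List.mem_append.1 (List.mem_dedup.1 hx)
          · exact ⟨a0, List.mem_dedup.2 (List.mem_append_left _ ha0), ha0⟩
          · exact ⟨b0, List.mem_dedup.2 (List.mem_append_right _ hb0), hb0⟩
        · unfold GS.Idc at hI
          push Not at hI
          obtain ⟨e1, e2, h1, h2, hd, hx, hTI⟩ := hI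
          -- the four pieces
          have hmem : ∀ x, x ∈ (u ++ v).dedup ↔ x ∈ u ∨ x ∈ v := by
            intro x
            rw [List.mem_dedup, List.mem_append]
          have hlen : ∀ l : List ℕ, (l.filter (fun x => decide (x ∈ e1))).length +
              (l.filter (fun x => decide (x ∉ e1))).length = l.length := by
            intro l
            induction l with
            | nil => rfl
            | cons a l ih =>
              by_cases ha : a ∈ e1
              · simp only [List.filter_cons, ha, decide_true, not_true_eq_false, decide_false,
                  if_true, List.length_cons]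
                simp only [Bool.false_eq_true, if_false]
                omega
              · simp only [List.filter_cons, ha, decide_true, not_false_eq_true, decide_false,
                  if_true, List.length_cons]
                simp only [Bool.false_eq_true, if_false]
                omega
          have f1 : ∀ (l : List ℕ) (x : ℕ), x ∈ l.filter (fun x => decide (x ∈ e1)) ↔
              x ∈ l ∧ x ∈ e1 := by
            intro l x
            rw [List.mem_filter, decide_eq_true_iff]
          have f2 : ∀ (l : List ℕ) (x : ℕ), x ∈ l.filter (fun x => decide (x ∉ e1)) ↔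
              x ∈ l ∧ x ∉ e1 := by
            intro l x
            rw [List.mem_filter, decide_eq_true_iff]
          have hT12 : G.TI π B (u.filter (fun x => decide (x ∈ e1)) ++
              v.filter (fun x => decide (x ∈ e1))) (u.filter (fun x => decide (x ∉ e1)) ++
              v.filter (fun x => decide (x ∉ e1))) := by
            refine mon e1 e2 _ _ ?_ ?_ hTI
            · intro x hx1
              rcases List.mem_append.1 hx1 with h | h
              · exact ((f1 _ _).1 h).2
              · exact ((f1 _ _).1 h).2
            · intro x hx1
              have h3 : (x ∈ u ∨ x ∈ v) ∧ x ∉ e1 := by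
                rcases List.mem_append.1 hx1 with h | h
                · exact ⟨Or.inl ((f2 _ _).1 h).1, ((f2 _ _).1 h).2⟩
                · exact ⟨Or.inr ((f2 _ _).1 h).1, ((f2 _ _).1 h).2⟩
              rcases (hx x).1 ((hmem x).2 h3.1) with h | h
              · exact absurd h h3.2
              · exact h
          have hlu := hlen u
          have hlv := hlen v
          by_cases hT1 : G.TI π B (u.filter (fun x => decide (x ∈ e1)))
              (v.filter (fun x => decide (x ∈ e1)))
          · by_cases hT2 : G.TI π B (u.filter (fun x => decide (x ∉ e1)))
              (v.filter (fun x => decide (x ∉ e1)))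
            · exfalso
              apply hn
              refine mon _ _ u v ?_ ?_ (tid _ _ _ _ (by omega) hT12 hT1 hT2)
              · intro x hx1
                by_cases h : x ∈ e1
                · exact List.mem_append_left _ ((f1 _ _).2 ⟨hx1, h⟩)
                · exact List.mem_append_right _ ((f2 _ _).2 ⟨hx1, h⟩)
              · intro x hx1
                by_cases h : x ∈ e1
                · exact List.mem_append_left _ ((f1 _ _).2 ⟨hx1, h⟩)
                · exact List.mem_append_right _ ((f2 _ _).2 ⟨hx1, h⟩)
            · obtain ⟨x1, hx1⟩ := List.exists_mem_of_ne_nil e1 h1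
              have hpos : 0 < (u.filter (fun x => decide (x ∈ e1))).length +
                  (v.filter (fun x => decide (x ∈ e1))).length := by
                rcases (hmem x1).1 ((hx x1).2 (Or.inl hx1)) with h | h
                · have := List.length_pos_of_mem ((f1 u x1).2 ⟨h, hx1⟩)
                  omega
                · have := List.length_pos_of_mem ((f1 v x1).2 ⟨h, hx1⟩)
                  omega
              obtain ⟨e, g1, g2, g3, g4, g5, g6⟩ := ih (u.filter (fun x => decide (x ∉ e1)))
                (v.filter (fun x => decide (x ∉ e1))) (by omega) (by omega)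
                ⟨X, hBX, fun a ha => hM a (by
                  rcases List.mem_append.1 ha with h | h
                  · exact List.mem_append_left _ ((f2 _ _).1 h).1
                  · exact List.mem_append_right _ ((f2 _ _).1 h).1)⟩ hT2
              refine ⟨e, g1, g2, g3, ?_, ?_, ?_⟩
              · intro x hx2
                rcases g4 x hx2 with h | h
                · exact Or.inl ((f2 _ _).1 h).1
                · exact Or.inr ((f2 _ _).1 h).1
              · obtain ⟨x, hx2, hx3⟩ := g5
                exact ⟨x, hx2, ((f2 _ _).1 hx3).1⟩
              · obtain ⟨x, hx2, hx3⟩ := g6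
                exact ⟨x, hx2, ((f2 _ _).1 hx3).1⟩
          · obtain ⟨x2, hx2⟩ := List.exists_mem_of_ne_nil e2 h2
            have hx2n : x2 ∉ e1 := fun h => hd _ h hx2
            have hpos : 0 < (u.filter (fun x => decide (x ∉ e1))).length +
                (v.filter (fun x => decide (x ∉ e1))).length := by
              rcases (hmem x2).1 ((hx x2).2 (Or.inr hx2)) with h | h
              · have := List.length_pos_of_mem ((f2 u x2).2 ⟨h, hx2n⟩)
                omega
              · have := List.length_pos_of_mem ((f2 v x2).2 ⟨h, hx2n⟩)
                omega
            obtain ⟨e, g1, g2, g3, g4, g5, g6⟩ := ih (u.filter (fun x => decide (x ∈ e1)))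
              (v.filter (fun x => decide (x ∈ e1))) (by omega) (by omega)
              ⟨X, hBX, fun a ha => hM a (by
                rcases List.mem_append.1 ha with h | h
                · exact List.mem_append_left _ ((f1 _ _).1 h).1
                · exact List.mem_append_right _ ((f1 _ _).1 h).1)⟩ hT1
            refine ⟨e, g1, g2, g3, ?_, ?_, ?_⟩
            · intro x hx3
              rcases g4 x hx3 with h | h
              · exact Or.inl ((f1 _ _).1 h).1
              · exact Or.inr ((f1 _ _).1 h).1
            · obtain ⟨x, hx3, hx4⟩ := g5
              exact ⟨x, hx3, ((f1 _ _).1 hx4).1⟩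
            · obtain ⟨x, hx3, hx4⟩ := g6
              exact ⟨x, hx3, ((f1 _ _).1 hx4).1⟩
  intro u v hl hX hn
  exact main _ u v le_rfl hl hX hn

end Pool.Agent.H2.CR
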